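import Pool.Agent.H357R3.FinOrb

/-!
# Finite orbits in the horofunction boundary of virtually abelian groups
-/

set_option autoImplicit false

open Filter Topology

namespace Pool.Agent.Results.MP_3614fc_al.VirtuallyAbelian

/-- For every infinite group `G` with an abelian subgroup of finite index and for every finite
symmetric generating set `S` of `G`, some horofunction of the word metric of `S` (a pointwise limit
of the functions `y ↦ d(x_n, y) - d(x_n, 1)` along a sequence with `d(x_n, 1) → ∞`) has a finite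
orbit under the action `(g · f)(y) = f(g⁻¹ y) - f(g⁻¹)`. -/
theorem result :
    ∀ (G : Type) [Group G], Infinite G →
      (∃ A : Subgroup G, A.FiniteIndex ∧ ∀ a ∈ A, ∀ b ∈ A, a * b = b * a) →
      ∀ S : Finset G, (∀ s ∈ S, s⁻¹ ∈ S) → Subgroup.closure (S : Set G) = ⊤ →
        ∃ f : G → ℝ,
          (∃ x : ℕ → G,
            Tendsto (fun n : ℕ => ((sInf {m : ℕ | ∃ l : List G, l.length = m ∧
                (∀ s ∈ l, s ∈ S) ∧ l.prod = (x n)⁻¹} : ℕ) : ℝ)) atTop atTop ∧
            ∀ y : G, Tendsto (fun n : ℕ =>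
                ((sInf {m : ℕ | ∃ l : List G, l.length = m ∧
                  (∀ s ∈ l, s ∈ S) ∧ l.prod = (x n)⁻¹ * y} : ℕ) : ℝ) -
                ((sInf {m : ℕ | ∃ l : List G, l.length = m ∧
                  (∀ s ∈ l, s ∈ S) ∧ l.prod = (x n)⁻¹} : ℕ) : ℝ))
              atTop (nhds (f y))) ∧
          (Set.range (fun g : G => fun y : G => f (g⁻¹ * y) - f g⁻¹)).Finite := by
  intro G _ hinf ⟨A, hA, hcomm⟩ S hs hS
  have hcount : (closure (Set.range (Pool.Agent.H357R3.FinOrb.bx S))).Countable := by
    have h := Pool.Agent.H205R3.Horo.countable_closure A hA hcomm S hS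
    have hwl : ∀ g, Pool.Agent.H205R3.Horo.wl S g = Pool.Agent.H357R3.HoroInv.len S g := by
      intro g
      have : ∀ s : G, (s ∈ S ∨ s⁻¹ ∈ S) ↔ s ∈ S := by
        intro s
        refine ⟨fun h => ?_, Or.inl⟩
        rcases h with h | h
        · exact h
        · have := hs _ h
          rwa [inv_inv] at this
      simp only [Pool.Agent.H205R3.Horo.wl, Pool.Agent.H357R3.HoroInv.len, this]
    have heq : Pool.Agent.H205R3.Horo.mf S = Pool.Agent.H357R3.FinOrb.bx S := by
      funext x y
      simp only [Pool.Agent.H205R3.Horo.mf, Pool.Agent.H357R3.FinOrb.bx, hwl, mul_one]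
    rw [heq] at h
    exact h
  exact Pool.Agent.H357R3.FinOrb.main hs hS hcount

end Pool.Agent.Results.MP_3614fc_al.VirtuallyAbelian
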